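import Pool.Agent.H73.GWT.Stmts

set_option autoImplicit false

open Classical

namespace GWT

theorem FIB (ι Γ : Type*) [Fintype ι] : FIBStmt ι Γ := by
  intro mk n F q B hB h1 h2
  have hfin : {l : List ι | l.length = n}.Finite := List.finite_length_eq ι n
  obtain ⟨L, hL⟩ : ∃ L : Finset (List ι), ∀ l, l ∈ L ↔ l.length = n :=
    ⟨hfin.toFinset, fun l => by simp⟩
  have e1 : GWP.wsum n F
      = GWP.wsum n (fun l => ∑ D ∈ L.image mk, if mk l = D then F l else 0) := by
    apply GWP.wsum_congr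
    intro l hl
    rw [Finset.sum_ite_eq, if_pos (Finset.mem_image_of_mem _ ((hL l).2 hl))]
  have hmem : ∀ D ∈ L.image mk, ∃ l : List ι, l.length = n ∧ mk l = D := by
    intro D hD
    obtain ⟨l, hl, rfl⟩ := Finset.mem_image.1 hD
    exact ⟨l, (hL l).1 hl, rfl⟩
  rw [e1, GWP.wsum_finset]
  exact (Finset.sum_le_sum fun D hD => h1 D (hmem D hD)).trans (h2 _ hmem)

end GWT
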