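import Pool.Agent.H73.GWT.Stmts

set_option autoImplicit false

open Classical

namespace GWT

variable {ι G V : Type*} [Fintype ι] [Group G] [MulAction G V] (C : Code ι G V)

theorem ini_spec (w : ℕ → G) (z : V) (lb : Prop) (x : ι) (F : List (ι × List ι)) (b : List ι)
    (R : ℕ) (h : Ok C w z F b R) :
    (∃ R', Ok C w z (ini lb x F).1 b R') ∧
    (ini lb x F).1.length + (ini lb x F).2.2.toList.length = F.length ∧
    (¬ lb → (ini lb x F).2.2 = none) := by
  cases F with
  | nil => exact ⟨⟨0, trivial⟩, rfl, fun _ => rfl⟩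
  | cons f F =>
    by_cases hl : lb
    · have e : ini lb x (f :: F) = (F, x :: (f.2 ++ [f.1]), some f.1) := by
        simp [ini, hl]
      rw [e]
      exact ⟨⟨_, h.2.2.2.2⟩, rfl, fun hn => absurd hl hn⟩
    · have e : ini lb x (f :: F) = (f :: F, [x], none) := by
        simp [ini, hl]
      rw [e]
      exact ⟨⟨R, h⟩, rfl, fun _ => rfl⟩

theorem MVA (h1 : PVAStmt C) (h2 : POKStmt C) (h3 : INVStmt C) : MVAStmt C := by
  intro w x l
  by_cases hG : Good C w x l
  · have e1 : msg C w x l = Msg.good := by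
      unfold msg; rw [if_pos hG]
    have e2 : St C w (x :: l) = ((x, []) :: (St C w l).1, (St C w l).2) := by
      rw [St, if_pos hG]
    rw [e1, e2]
    refine ⟨trivial, fun X hX => ?_⟩
    rw [List.length_cons, pow_succ]
    rfl
  · obtain ⟨i1, i2, i3⟩ := ini_spec C w (W C w l • C.o) (LB C (W C w l) x) x (St C w l).1
      (St C w l).2 _ (h3 w l).2
    obtain ⟨R, hR⟩ := i1
    have e1 : msg C w x l = Msg.bad (decide (LB C (W C w l) x))
        (ini (LB C (W C w l) x) x (St C w l).1).2.2
        (pop C w (W C w l) (bet C w x l) (ini (LB C (W C w l) x) x (St C w l).1).1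
          (ini (LB C (W C w l) x) x (St C w l).1).2.1 (St C w l).2).1 := by
      unfold msg; rw [if_neg hG]
    have e2 : St C w (x :: l) =
        (pop C w (W C w l) (bet C w x l) (ini (LB C (W C w l) x) x (St C w l).1).1
          (ini (LB C (W C w l) x) x (St C w l).1).2.1 (St C w l).2).2 := by
      rw [St, if_neg hG]
    obtain ⟨us, rs, hu1, hu2, hu3⟩ := h1 w (W C w l) (bet C w x l) (W C w l • C.o)
      (ini (LB C (W C w l) x) x (St C w l).1).1
      (ini (LB C (W C w l) x) x (St C w l).1).2.1 (St C w l).2 R hR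
    obtain ⟨-, -, hlen⟩ := h2 w (W C w l) (bet C w x l) (W C w l • C.o) (W C w (x :: l) • C.o)
      (ini (LB C (W C w l) x) x (St C w l).1).1
      (ini (LB C (W C w l) x) x (St C w l).1).2.1 (St C w l).2 R hR
      (fun p hp hd => CEN1 C.tree hp hd) (CEN3 C.tree _ _ _)
    rw [e1, e2]
    refine ⟨⟨fun hb => i3 (of_decide_eq_false hb), us, rs, hu1, hu2, hu3⟩, fun X hX => ?_⟩
    have hX' : X ≠ 0 := hX.ne'
    have hs : (St C w l).1.length =
        (pop C w (W C w l) (bet C w x l) (ini (LB C (W C w l) x) x (St C w l).1).1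
          (ini (LB C (W C w l) x) x (St C w l).1).2.1 (St C w l).2).2.1.length +
        ((ini (LB C (W C w l) x) x (St C w l).1).2.2.toList.length +
        (pop C w (W C w l) (bet C w x l) (ini (LB C (W C w l) x) x (St C w l).1).1
          (ini (LB C (W C w l) x) x (St C w l).1).2.1 (St C w l).2).1.length) := by
      omega
    rw [hs, pow_add, omg, mul_assoc, ← mul_pow, mul_inv_cancel₀ hX', one_pow, mul_one]

end GWT
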